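import Pool.Agent.W667.DT.Stms

set_option autoImplicit false
set_option linter.all false

namespace Pool.Agent.W347.DT

open Pool.Agent.W667.DT Topology Filter

theorem Dr_succ (Ω : Type) [TopologicalSpace Ω] (r : ℕ) : Dr Ω (r + 1) ⊆ Dr Ω r := by
  induction r with
  | zero => exact Set.subset_univ _
  | succ r ih => exact derivedSet_mono _ _ ih

theorem step : S_STEP := by
  classical
  intro Ω _ _ _ _ r k S O hO
  have hz : ∀ s : Fin k → Bool, ∃ z : Ω, z ∈ Dr Ω r ∧ z ≠ S.y s ∧ z ∈ O s ∧ S.q z = s := by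
    intro s
    have h1 : AccPt (S.y s) (𝓟 (Dr Ω r)) := S.rk s
    rw [accPt_iff_nhds] at h1
    have h2 : O s ∩ S.q ⁻¹' {s} ∈ 𝓝 (S.y s) := by
      apply IsOpen.mem_nhds
      · exact (hO s).1.inter ((isOpen_discrete _).preimage S.q.continuous)
      · exact ⟨(hO s).2, S.qy s⟩
    obtain ⟨z, ⟨hz1, hz2⟩, hz3⟩ := h1 _ h2
    exact ⟨z, hz2, hz3, hz1.1, hz1.2⟩
  choose z hz1 hz2 hz3 hz4 using hz
  have hW : ∀ s : Fin k → Bool, ∃ W : Set Ω, IsClopen W ∧ z s ∈ W ∧ W ⊆ S.q ⁻¹' {s} \ {S.y s} := by
    intro s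
    apply compact_exists_isClopen_in_isOpen
    · exact ((isOpen_discrete _).preimage S.q.continuous).sdiff isClosed_singleton
    · exact ⟨hz4 s, hz2 s⟩
  choose W hW1 hW2 hW3 using hW
  let V : Set Ω := ⋃ s, W s
  have hV : IsClopen V := isClopen_iUnion_of_finite hW1
  have hmem : ∀ w, w ∈ V ↔ w ∈ W (S.q w) := by
    intro w
    constructor
    · intro h
      obtain ⟨s, hs⟩ := Set.mem_iUnion.mp h
      have h1 : S.q w = s := (hW3 s hs).1
      rw [h1]; exact hs
    · intro h
      exact Set.mem_iUnion.mpr ⟨_, h⟩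
  let q' : C(Ω, Fin (k + 1) → Bool) := ⟨fun w => (Fin.snoc (S.q w) (decide (w ∈ V)) : Fin (k + 1) → Bool), by
    apply continuous_pi
    intro i
    refine Fin.lastCases ?_ (fun j => ?_) i
    · simp only [Fin.snoc_last]
      rw [continuous_bool_rng true]
      have : (fun w => decide (w ∈ V)) ⁻¹' {true} = V := by
        ext w; simp
      rw [this]; exact hV
    · simp only [Fin.snoc_castSucc]
      exact (continuous_apply j).comp S.q.continuous⟩
  have hq' : ∀ w, q' w = (Fin.snoc (S.q w) (decide (w ∈ V)) : Fin (k + 1) → Bool) := fun w => rfl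
  have hyV : ∀ s, S.y s ∉ V := by
    intro s h
    rw [hmem, S.qy] at h
    exact (hW3 s h).2 rfl
  have hzV : ∀ s, z s ∈ V := fun s => Set.mem_iUnion.mpr ⟨s, hW2 s⟩
  let S' : Stage Ω r (k + 1) :=
    { y := fun t => if t (Fin.last k) then z (Fin.init t) else S.y (Fin.init t)
      q := q'
      qy := by
        intro t
        by_cases ht : t (Fin.last k) = true
        · rw [if_pos ht, hq', hz4]
          have : decide (z (Fin.init t) ∈ V) = t (Fin.last k) := by
            rw [ht, decide_eq_true_eq]; exact hzV _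
          rw [this, Fin.snoc_init_self]
        · rw [if_neg ht, hq', S.qy]
          have : decide (S.y (Fin.init t) ∈ V) = t (Fin.last k) := by
            rw [Bool.not_eq_true] at ht
            rw [ht, decide_eq_false_iff_not]; exact hyV _
          rw [this, Fin.snoc_init_self]
      rk := by
        intro t
        by_cases ht : t (Fin.last k) = true
        · rw [if_pos ht]; exact hz1 _
        · rw [if_neg ht]; exact Dr_succ Ω r (S.rk _) }
  refine ⟨S', fun w => ?_, fun s => ?_, fun s => ?_⟩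
  · show Fin.init (q' w) = S.q w
    rw [hq', Fin.init_snoc]
  · show (if (Fin.snoc s false : Fin (k + 1) → Bool) (Fin.last k) then _ else S.y (Fin.init (Fin.snoc s false : Fin (k + 1) → Bool))) = S.y s
    rw [Fin.snoc_last, Fin.init_snoc]
    simp
  · show (if (Fin.snoc s true : Fin (k + 1) → Bool) (Fin.last k) then z (Fin.init (Fin.snoc s true : Fin (k + 1) → Bool)) else _) ∈ O s
    rw [Fin.snoc_last, Fin.init_snoc]
    simp only [if_true]
    exact hz3 s

end Pool.Agent.W347.DT
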